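import Mathlib
import Pool.Agent.Helper76_LAG.Stmt

/-!
# LAG: module AV (vertices far from a separated set)
-/

set_option autoImplicit false

namespace Pool.Agent.LAG.H10

open SimpleGraph

theorem isP_segment {V : Type} (G : SimpleGraph V) (z : ℕ → V) (m N t : ℕ) (hz : IsC G z m)
    (hN : N < m) : IsP G (fun i => z ((t + i) % m)) N := by
  obtain ⟨h3, hadj, h0, hinj⟩ := hz
  have hm : 0 < m := by omega
  refine ⟨fun i hi => ?_, fun i j hi hj h => ?_⟩
  · have h1 := hadj ((t + i) % m) (Nat.mod_lt _ hm)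
    have h2 : z ((t + (i + 1)) % m) = z ((t + i) % m + 1) := by
      have h4 : (t + (i + 1)) % m = ((t + i) % m + 1) % m := by
        rw [← add_assoc, Nat.mod_add_mod]
      rw [h4]
      rcases Nat.lt_or_ge ((t + i) % m + 1) m with h5 | h5
      · rw [Nat.mod_eq_of_lt h5]
      · have h6 : (t + i) % m + 1 = m := by
          have := Nat.mod_lt (t + i) hm
          omega
        rw [h6, Nat.mod_self, h0]
    simp only
    rw [h2]
    exact h1
  · have h1 := hinj _ _ (Nat.mod_lt _ hm) (Nat.mod_lt _ hm) h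
    have h2 : t + i ≡ t + j [MOD m] := h1
    have h3 : i ≡ j [MOD m] := Nat.ModEq.add_left_cancel' t h2
    exact Nat.ModEq.eq_of_lt_of_lt h3 (by omega) (by omega)

theorem avc (hZ : ZoneStmt) (hC : CycLenStmt) : AvcStmt := by
  intro V G ρ X hG hX z m hz
  classical
  have hm := hC V G _ hG z m hz
  have hm0 : 0 < m := by omega
  set bad : ℕ → Prop := fun t => ∃ x ∈ X, near G ρ (z t) x with hbad
  have h1 : {t : ℕ | t < m ∧ ¬ ∃ x ∈ X, near G ρ (z t) x} =
      ↑((Finset.range m).filter (fun t => ¬ bad t)) := by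
    ext t
    simp [hbad]
  rw [h1, Set.ncard_coe_finset]
  have h2 := Finset.card_filter_add_card_filter_not (s := Finset.range m) bad
  rw [Finset.card_range] at h2
  have h3 : ((Finset.range m).filter bad).card ≤ ((Finset.range m).filter (fun t => ¬ bad t)).card := by
    refine Finset.card_le_card_of_injOn (fun t => (t + (2 * ρ + 2)) % m) ?_ ?_
    · intro t ht
      simp only [Finset.coe_filter, Finset.mem_range, Set.mem_ofPred_eq] at ht ⊢
      refine ⟨Nat.mod_lt _ hm0, ?_⟩
      have h4 := hZ V G ρ X hG hX (fun i => z ((t + i) % m))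
        (isP_segment G z m _ t hz (by omega)) (by
          simp only [add_zero]
          rw [Nat.mod_eq_of_lt ht.1]
          exact ht.2)
      exact h4
    · intro s hs t ht h
      simp only [Finset.coe_filter, Finset.mem_range, Set.mem_ofPred_eq] at hs ht
      have h5 : s + (2 * ρ + 2) ≡ t + (2 * ρ + 2) [MOD m] := h
      exact Nat.ModEq.eq_of_lt_of_lt (Nat.ModEq.add_right_cancel' _ h5) hs.1 ht.1
  omega

theorem avp (hZ : ZoneStmt) : AvpStmt := by
  intro V G ρ X hG hX z n hz
  classical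
  set bad : ℕ → Prop := fun t => ∃ x ∈ X, near G ρ (z t) x with hbad
  have h1 : {t : ℕ | 0 < t ∧ t ≤ n ∧ ¬ ∃ x ∈ X, near G ρ (z t) x} =
      ↑((Finset.Icc 1 n).filter (fun t => ¬ bad t)) := by
    ext t
    simp only [Set.mem_ofPred_eq, Finset.coe_filter, Finset.mem_Icc, hbad]
    constructor
    · rintro ⟨h1, h2, h3⟩
      exact ⟨⟨h1, h2⟩, h3⟩
    · rintro ⟨⟨h1, h2⟩, h3⟩
      exact ⟨h1, h2, h3⟩
  rw [h1, Set.ncard_coe_finset]
  have h2 := Finset.card_filter_add_card_filter_not (s := Finset.Icc 1 n) bad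
  rw [Nat.card_Icc] at h2
  have h3 : (((Finset.Icc 1 n).filter bad).filter (fun t => t + (2 * ρ + 2) ≤ n)).card ≤
      ((Finset.Icc 1 n).filter (fun t => ¬ bad t)).card := by
    refine Finset.card_le_card_of_injOn (fun t => t + (2 * ρ + 2)) ?_ ?_
    · intro t ht
      simp only [Finset.coe_filter, Finset.mem_filter, Finset.mem_Icc, Set.mem_ofPred_eq] at ht ⊢
      obtain ⟨⟨⟨ht1, ht2⟩, ht3⟩, ht4⟩ := ht
      refine ⟨⟨by omega, ht4⟩, ?_⟩
      refine hZ V G ρ X hG hX (fun i => z (t + i)) ⟨?_, ?_⟩ ht3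
      · intro i hi
        exact hz.1 (t + i) (by omega)
      · intro i j hi hj h
        have := hz.2 _ _ (by omega) (by omega) h
        omega
    · intro s hs t ht h
      simp only at h
      omega
  have h4 : (((Finset.Icc 1 n).filter bad).filter (fun t => ¬ t + (2 * ρ + 2) ≤ n)).card ≤
      2 * ρ + 2 := by
    calc _ ≤ (Finset.Ioc (n - (2 * ρ + 2)) n).card := by
          refine Finset.card_le_card ?_
          intro t ht
          simp only [Finset.mem_filter, Finset.mem_Icc, Finset.mem_Ioc] at ht ⊢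
          omega
      _ ≤ 2 * ρ + 2 := by
          rw [Nat.card_Ioc]
          omega
  have h5 := Finset.card_filter_add_card_filter_not (s := (Finset.Icc 1 n).filter bad)
    (fun t => t + (2 * ρ + 2) ≤ n)
  omega

end Pool.Agent.LAG.H10

namespace Pool.Agent.LAG

theorem avc (hZ : ZoneStmt) (hC : CycLenStmt) : AvcStmt := H10.avc hZ hC

theorem avp (hZ : ZoneStmt) : AvpStmt := H10.avp hZ

end Pool.Agent.LAG
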