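import Mathlib
import Pool.Agent.Helper76_LAG.Stmt

/-!
# LAG: modules CNTP and CNTC (number of paths and cycles)
-/

set_option autoImplicit false

namespace Pool.Agent.LAG.H10

open SimpleGraph

variable {V : Type}

/-! ### Periodic sequences -/

theorem ofNat_mod (n t : ℕ) : Fin.ofNat (n + 1) (t % (n + 1)) = Fin.ofNat (n + 1) t := by
  ext
  simp [Fin.ofNat]

theorem cyc_mod {n : ℕ} (z : Fin (n + 1) → V) (t : ℕ) : cyc z (t % (n + 1)) = cyc z t := by
  unfold cyc
  rw [ofNat_mod]

theorem cyc_congr {n : ℕ} (z : Fin (n + 1) → V) {s t : ℕ} (h : s % (n + 1) = t % (n + 1)) :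
    cyc z s = cyc z t := by
  rw [← cyc_mod z s, h, cyc_mod]

theorem cyc_val {n : ℕ} (z : Fin (n + 1) → V) (i : Fin (n + 1)) : cyc z i.val = z i := by
  unfold cyc
  congr 1
  ext
  simp [Fin.ofNat, Nat.mod_eq_of_lt i.isLt]

theorem cyc_ext {n : ℕ} {z z' : Fin (n + 1) → V} (h : ∀ t, t ≤ n → cyc z t = cyc z' t) :
    z = z' := by
  funext i
  rw [← cyc_val z i, ← cyc_val z' i]
  exact h _ (by omega)

theorem isC_adj {H : SimpleGraph V} {n : ℕ} {z : Fin (n + 1) → V} (hz : IsC H (cyc z) (n + 1))
    (t : ℕ) : H.Adj (cyc z t) (cyc z (t + 1)) := by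
  have h1 := hz.2.1 (t % (n + 1)) (Nat.mod_lt _ (by omega))
  rw [cyc_mod] at h1
  rwa [cyc_congr z (s := t % (n + 1) + 1) (t := t + 1) (by rw [Nat.mod_add_mod])] at h1

theorem isC_inj {H : SimpleGraph V} {n : ℕ} {z : Fin (n + 1) → V} (hz : IsC H (cyc z) (n + 1))
    {s t : ℕ} (h : cyc z s = cyc z t) : s % (n + 1) = t % (n + 1) := by
  rw [← cyc_mod z s, ← cyc_mod z t] at h
  exact hz.2.2.2 _ _ (Nat.mod_lt _ (by omega)) (Nat.mod_lt _ (by omega)) h

theorem isC_path {H : SimpleGraph V} {n : ℕ} {z : Fin (n + 1) → V} (hz : IsC H (cyc z) (n + 1))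
    (q k : ℕ) (hk : k ≤ n) : IsP H (fun t => cyc z (q + t)) k := by
  refine ⟨fun t _ => isC_adj hz (q + t), fun s t hs ht h => ?_⟩
  have h1 : q + s ≡ q + t [MOD (n + 1)] := isC_inj hz h
  exact Nat.ModEq.eq_of_lt_of_lt (Nat.ModEq.add_left_cancel' q h1) (by omega) (by omega)

theorem IsP.mono {G H : SimpleGraph V} (hHG : H ≤ G) {z : ℕ → V} {n : ℕ} (hz : IsP H z n) :
    IsP G z n := ⟨fun t ht => hHG (hz.1 t ht), hz.2⟩

theorem IsC.mono {G H : SimpleGraph V} (hHG : H ≤ G) {z : ℕ → V} {n : ℕ} (hz : IsC H z n) :
    IsC G z n := ⟨hz.1, fun t ht => hHG (hz.2.1 t ht), hz.2.2.1, hz.2.2.2⟩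

/-! ### Counting paths from a vertex -/

/-- The paths with `n` edges from `y`, as sequences which are constant after `n`. -/
def Pth (H : SimpleGraph V) (n : ℕ) (y : V) : Set (ℕ → V) :=
  {z | IsP H z n ∧ z 0 = y ∧ ∀ t, n ≤ t → z t = z n}

theorem Pth.finite [Finite V] (H : SimpleGraph V) (n : ℕ) (y : V) : (Pth H n y).Finite := by
  refine (Set.finite_range (fun f : Fin (n + 1) → V => fun t : ℕ => cyc f (min t n))).subset ?_
  intro z hz
  refine ⟨fun i => z i.val, ?_⟩
  funext t
  have h1 : cyc (fun i : Fin (n + 1) => z i.val) (min t n) = z (min t n) := by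
    unfold cyc
    have h2 : (Fin.ofNat (n + 1) (min t n)).val = min t n := by
      simp only [Fin.ofNat]
      exact Nat.mod_eq_of_lt (by omega)
    simp only
    rw [h2]
  simp only
  rw [h1]
  rcases le_total n t with h | h
  · rw [min_eq_right h, hz.2.2 t h]
  · rw [min_eq_left h]

theorem IsP.trunc {H : SimpleGraph V} {z : ℕ → V} {n m : ℕ} (hz : IsP H z m) (h : n ≤ m) :
    (fun t => z (min t n)) ∈ Pth H n (z 0) := by
  refine ⟨⟨fun t ht => ?_, fun s t hs ht hst => ?_⟩, ?_, fun t ht => ?_⟩
  · have h1 := hz.1 t (by omega)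
    simp only
    rwa [min_eq_left (by omega), min_eq_left (by omega)]
  · simp only at hst
    rw [min_eq_left hs, min_eq_left ht] at hst
    exact hz.2 s t (by omega) (by omega) hst
  · simp
  · simp only
    rw [min_eq_right ht, min_self]

/-- The pairing which pairs `s` with `s'`. -/
def rel (s s' : Fin 4) : Fin 3 := if kx 0 s = s' then 0 else if kx 1 s = s' then 1 else 2

theorem kx_rel : ∀ s s' : Fin 4, s ≠ s' → kx (rel s s') s = s' := by decide

theorem card_pth [Finite V] (E : Env V) (y : V) : ∀ n : ℕ,
    3 * (Pth E.H n y).ncard ≤ 4 * 3 ^ n := by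
  intro n
  induction n with
  | zero =>
    have h1 : (Pth E.H 0 y).ncard ≤ 1 := by
      rw [Set.ncard_le_one (Pth.finite _ _ _)]
      intro z hz z' hz'
      funext t
      rw [hz.2.2 t (Nat.zero_le t), hz'.2.2 t (Nat.zero_le t), hz.2.1, hz'.2.1]
    omega
  | succ n ih =>
    rcases Nat.eq_zero_or_pos n with hn | hn
    · subst hn
      have h1 : (Pth E.H (0 + 1) y).ncard ≤ (Set.univ : Set (Fin 4)).ncard := by
        refine Set.ncard_le_ncard_of_injOn (fun z => E.slot y (z 1)) (fun _ _ => trivial) ?_
        intro z hz z' hz' h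
        have ha : E.H.Adj y (z 1) := by
          have := hz.1.1 0 (by omega)
          rwa [hz.2.1] at this
        have ha' : E.H.Adj y (z' 1) := by
          have := hz'.1.1 0 (by omega)
          rwa [hz'.2.1] at this
        have h2 : z 1 = z' 1 := E.slot_inj y _ _ ha ha' h
        funext t
        rcases t with _ | t
        · rw [hz.2.1, hz'.2.1]
        · rw [hz.2.2 (t + 1) (by omega), hz'.2.2 (t + 1) (by omega)]
          exact h2
      rw [Set.ncard_univ, Nat.card_eq_fintype_card, Fintype.card_fin] at h1
      omega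
    · have h1 : (Pth E.H (n + 1) y).ncard ≤
          ((Pth E.H n y) ×ˢ (Set.univ : Set (Fin 3))).ncard := by
        refine Set.ncard_le_ncard_of_injOn (fun z => ((fun t => z (min t n)),
          rel (E.slot (z n) (z (n - 1))) (E.slot (z n) (z (n + 1))))) ?_ ?_
          ((Pth.finite _ _ _).prod Set.finite_univ)
        · intro z hz
          refine ⟨?_, trivial⟩
          have := IsP.trunc hz.1 (n := n) (by omega)
          rwa [hz.2.1] at this
        · intro z hz z' hz' h
          simp only [Prod.mk.injEq] at h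
          obtain ⟨h1, h2⟩ := h
          have h3 : ∀ t, t ≤ n → z t = z' t := by
            intro t ht
            have := congrFun h1 t
            rwa [min_eq_left ht] at this
          have key : ∀ w : ℕ → V, w ∈ Pth E.H (n + 1) y →
              kx (rel (E.slot (w n) (w (n - 1))) (E.slot (w n) (w (n + 1))))
                (E.slot (w n) (w (n - 1))) = E.slot (w n) (w (n + 1)) := by
            intro w hw
            apply kx_rel
            intro hs
            have ha : E.H.Adj (w n) (w (n - 1)) := by
              have := (hw.1.1 (n - 1) (by omega)).symm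
              rwa [Nat.sub_add_cancel hn] at this
            have hb : E.H.Adj (w n) (w (n + 1)) := hw.1.1 n (by omega)
            have := hw.1.2 _ _ (by omega) (by omega) (E.slot_inj _ _ _ ha hb hs)
            omega
          have k1 := key z hz
          have k2 := key z' hz'
          rw [h2, h3 n le_rfl, h3 (n - 1) (by omega)] at k1
          have h4 : z (n + 1) = z' (n + 1) := by
            refine E.slot_inj (z' n) _ _ ?_ (hz'.1.1 n (by omega)) ?_
            · rw [← h3 n le_rfl]
              exact hz.1.1 n (by omega)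
            · exact k1.symm.trans k2
          funext t
          rcases Nat.lt_or_ge n t with ht | ht
          · rw [hz.2.2 t ht, hz'.2.2 t ht]
            exact h4
          · exact h3 t ht
      rw [Set.ncard_prod, Set.ncard_univ, Nat.card_eq_fintype_card, Fintype.card_fin] at h1
      rw [pow_succ]
      omega

/-! ### CNTP -/

theorem cntP : CntPStmt := by
  intro V _ E n p y hp
  classical
  have h1 : Nat.card {z : Fin (n + 1) → V // IsP E.H (cyc z) n ∧ cyc z p = y} ≤
      ((Pth E.H (n - p) y) ×ˢ (Pth E.H p y)).ncard := by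
    rw [← Nat.card_coe_set_eq]
    have hfin : Finite ↑((Pth E.H (n - p) y) ×ˢ (Pth E.H p y)) :=
      ((Pth.finite _ _ _).prod (Pth.finite _ _ _)).to_subtype
    have hr : ∀ z : {z : Fin (n + 1) → V // IsP E.H (cyc z) n ∧ cyc z p = y},
        ((fun t => cyc z.1 (p + min t (n - p))), (fun t => cyc z.1 (p - min t p))) ∈
          (Pth E.H (n - p) y) ×ˢ (Pth E.H p y) := by
      rintro ⟨z, hz, hy⟩
      constructor
      · have hP : IsP E.H (fun t => cyc z (p + t)) (n - p) := by
          refine ⟨fun t ht => hz.1 (p + t) (by omega), fun s t hs ht h => ?_⟩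
          have := hz.2 _ _ (by omega) (by omega) h
          omega
        have := IsP.trunc hP (le_refl (n - p))
        simp only [add_zero, hy] at this
        exact this
      · have hP : IsP E.H (fun t => cyc z (p - t)) p := by
          refine ⟨fun t ht => ?_, fun s t hs ht h => ?_⟩
          · have := (hz.1 (p - (t + 1)) (by omega)).symm
            rwa [show p - (t + 1) + 1 = p - t by omega] at this
          · have := hz.2 _ _ (by omega) (by omega) h
            omega
        have := IsP.trunc hP (le_refl p)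
        simp only [Nat.sub_zero, hy] at this
        exact this
    refine Nat.card_le_card_of_injective (fun z => (⟨_, hr z⟩ :
      ↑((Pth E.H (n - p) y) ×ˢ (Pth E.H p y)))) ?_
    rintro ⟨z, hz, hy⟩ ⟨z', hz', hy'⟩ h
    simp only [Subtype.mk.injEq, Prod.mk.injEq] at h
    obtain ⟨h1, h2⟩ := h
    apply Subtype.ext
    simp only
    apply cyc_ext
    intro t ht
    rcases le_total p t with hpt | hpt
    · have := congrFun h1 (t - p)
      rwa [min_eq_left (by omega), show p + (t - p) = t by omega] at this
    · have := congrFun h2 (p - t)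
      rwa [min_eq_left (by omega), show p - (p - t) = t by omega] at this
  rw [Set.ncard_prod] at h1
  have h2 := card_pth E y (n - p)
  have h3 := card_pth E y p
  calc 9 * Nat.card {z : Fin (n + 1) → V // IsP E.H (cyc z) n ∧ cyc z p = y}
      ≤ 9 * ((Pth E.H (n - p) y).ncard * (Pth E.H p y).ncard) := Nat.mul_le_mul_left _ h1
    _ = (3 * (Pth E.H (n - p) y).ncard) * (3 * (Pth E.H p y).ncard) := by ring
    _ ≤ (4 * 3 ^ (n - p)) * (4 * 3 ^ p) := Nat.mul_le_mul h2 h3
    _ = 16 * 3 ^ n := by
        have : (3 : ℕ) ^ n = 3 ^ (n - p) * 3 ^ p := by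
          rw [← pow_add, Nat.sub_add_cancel hp]
        rw [this]
        ring

/-! ### CNTC -/

theorem cntC (hU : UniqSStmt) (hC : CycLenStmt) : CntCStmt := by
  intro V _ G h E hG hHG n p y hp
  classical
  -- the number of edges of the path which determines the cycle
  set k : ℕ := if h = 0 then n else n + 1 - h with hk
  have hlen : ∀ z : Fin (n + 1) → V, IsC E.H (cyc z) (n + 1) → 2 * h < n + 1 := fun z hz =>
    hC V G _ hG _ _ (IsC.mono hHG hz)
  have h1 : Nat.card {z : Fin (n + 1) → V // IsC E.H (cyc z) (n + 1) ∧ cyc z p = y} ≤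
      (Pth E.H k y).ncard := by
    rw [← Nat.card_coe_set_eq]
    have hfin : Finite ↑(Pth E.H k y) := (Pth.finite _ _ _).to_subtype
    have hr : ∀ z : {z : Fin (n + 1) → V // IsC E.H (cyc z) (n + 1) ∧ cyc z p = y},
        (fun t => cyc z.1 (p + min t k)) ∈ Pth E.H k y := by
      rintro ⟨z, hz, hy⟩
      have := IsP.trunc (isC_path hz p k (by
        rw [hk]
        split_ifs with h0
        · exact le_rfl
        · omega)) (le_refl k)
      simp only [add_zero, hy] at this
      exact this
    refine Nat.card_le_card_of_injective (fun z => (⟨_, hr z⟩ : ↑(Pth E.H k y))) ?_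
    rintro ⟨z, hz, hy⟩ ⟨z', hz', hy'⟩ he
    simp only [Subtype.mk.injEq] at he
    have he1 : ∀ t, t ≤ k → cyc z (p + t) = cyc z' (p + t) := by
      intro t ht
      have := congrFun he t
      rwa [min_eq_left ht] at this
    have he2 : ∀ t, t ≤ n → cyc z (p + t) = cyc z' (p + t) := by
      intro t ht
      rcases le_total t k with htk | htk
      · exact he1 t htk
      · by_cases h0 : h = 0
        · rw [hk, if_pos h0] at htk
          exact he1 t (by rw [hk, if_pos h0]; omega)
        · rw [if_neg h0] at hk
          have hl := hlen z hz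
          have h3 := hU V G _ hG (fun i => cyc z (p + k + i)) (fun i => cyc z' (p + k + i)) h h
            (IsP.mono hHG (isC_path hz _ _ (by omega)))
            (IsP.mono hHG (isC_path hz' _ _ (by omega))) (he1 k le_rfl) (by
              rw [cyc_congr z (s := p + k + h) (t := p) (by
                rw [show p + k + h = p + (n + 1) by omega]; simp),
                cyc_congr z' (s := p + k + h) (t := p) (by
                rw [show p + k + h = p + (n + 1) by omega]; simp), hy, hy']) (by omega)
          have h4 := h3.2 (t - k) (by omega)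
          rwa [show p + k + (t - k) = p + t by omega] at h4
    apply Subtype.ext
    simp only
    apply cyc_ext
    intro t ht
    rcases le_total p t with hpt | hpt
    · have := he2 (t - p) (by omega)
      rwa [show p + (t - p) = t by omega] at this
    · by_cases htp : t = p
      · have := he2 0 (by omega)
        rwa [add_zero, ← htp] at this
      · have := he2 (n + 1 - p + t) (by omega)
        rw [cyc_congr z (s := p + (n + 1 - p + t)) (t := t) (by
            rw [show p + (n + 1 - p + t) = t + (n + 1) by omega]; simp),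
          cyc_congr z' (s := p + (n + 1 - p + t)) (t := t) (by
            rw [show p + (n + 1 - p + t) = t + (n + 1) by omega]; simp)] at this
        exact this
  have h2 := card_pth E y k
  rcases isEmpty_or_nonempty {z : Fin (n + 1) → V // IsC E.H (cyc z) (n + 1) ∧ cyc z p = y}
    with hem | ⟨⟨z, hz, -⟩⟩
  · rw [Nat.card_of_isEmpty]
    simp
  · have hl := hlen z hz
    set N := Nat.card {z : Fin (n + 1) → V // IsC E.H (cyc z) (n + 1) ∧ cyc z p = y} with hN
    have h3 : 3 * N ≤ 4 * 3 ^ k := le_trans (Nat.mul_le_mul_left _ h1) h2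
    calc 3 ^ (h + 1) * N = 3 ^ h * (3 * N) := by rw [pow_succ]; ring
      _ ≤ 3 ^ h * (4 * 3 ^ k) := Nat.mul_le_mul_left _ h3
      _ = 4 * 3 ^ (k + h) := by rw [pow_add]; ring
      _ ≤ 4 * 3 ^ (n + 1) := by
        refine Nat.mul_le_mul_left _ (Nat.pow_le_pow_right (by omega) ?_)
        rw [hk]
        split_ifs with h0
        · omega
        · omega

end Pool.Agent.LAG.H10

namespace Pool.Agent.LAG

theorem cntP : CntPStmt := H10.cntP

theorem cntC (hU : UniqSStmt) (hC : CycLenStmt) : CntCStmt := H10.cntC hU hC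

end Pool.Agent.LAG
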