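import Mathlib
import Pool.Agent.Helper76_LAG.Stmt

/-!
# LAG: modules SUM2 and SUM3 (sums of the probabilities of the events Ev2 and Ev3)
-/

set_option autoImplicit false

namespace Pool.Agent.LAG.H10

open SimpleGraph

/-! ### Product bound along a sequence -/

theorem prod_bound (hPrd : PrdStmt) {V α : Type} [Fintype V] [Fintype α] (z : ℕ → V) (m : ℕ)
    (hinj : ∀ s t, 0 < s → s < m → 0 < t → t < m → z s = z t → s = t)
    (Q : ℕ → α → Prop) (D N : ℕ → ℕ)
    (hQ : ∀ t, 0 < t → t < m → Nat.card {a : α // Q t a} * D t ≤ N t * Nat.card α) :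
    (∏ t ∈ Finset.Ioo 0 m, D t) *
      Nat.card {ω : V → α // ∀ t, 0 < t → t < m → Q t (ω (z t))} ≤
      (∏ t ∈ Finset.Ioo 0 m, N t) * Nat.card (V → α) := by
  classical
  have h1 := hPrd V α ((Finset.Ioo 0 m).image z)
    (fun v a => ∀ t, 0 < t → t < m → z t = v → Q t a)
  have hI : Set.InjOn z ↑(Finset.Ioo 0 m) := by
    intro s hs t ht h
    rw [Finset.coe_Ioo] at hs ht
    exact hinj s t hs.1 hs.2 ht.1 ht.2 h
  rw [Finset.card_image_of_injOn hI, Finset.prod_image hI] at h1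
  have h2 : {ω : V → α // ∀ v ∈ (Finset.Ioo 0 m).image z,
      ∀ t, 0 < t → t < m → z t = v → Q t (ω v)} =
      {ω : V → α // ∀ t, 0 < t → t < m → Q t (ω (z t))} := by
    congr 1
    funext ω
    apply propext
    constructor
    · intro h t h0 ht
      exact h (z t) (Finset.mem_image.2 ⟨t, Finset.mem_Ioo.2 ⟨h0, ht⟩, rfl⟩) t h0 ht rfl
    · intro h v _ t h0 ht hv
      rw [← hv]
      exact h t h0 ht
  rw [h2] at h1
  have h3 : ∀ t ∈ Finset.Ioo 0 m,
      Nat.card {a : α // ∀ s, 0 < s → s < m → z s = z t → Q s a} = Nat.card {a : α // Q t a} := by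
    intro t ht
    rw [Finset.mem_Ioo] at ht
    congr 2
    funext a
    apply propext
    constructor
    · intro h
      exact h t ht.1 ht.2 rfl
    · intro h s hs0 hs hst
      rwa [hinj s t hs0 hs ht.1 ht.2 hst]
  rw [Finset.prod_congr rfl h3] at h1
  set X := Nat.card {ω : V → α // ∀ t, 0 < t → t < m → Q t (ω (z t))} with hX
  rcases Nat.eq_zero_or_pos (Nat.card α) with h0 | h0
  · have hem : IsEmpty α := by
      rw [Nat.card_eq_fintype_card] at h0
      exact Fintype.card_eq_zero_iff.1 h0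
    have : IsEmpty {ω : V → α // ∀ t, 0 < t → t < m → Q t (ω (z t))} :=
      ⟨fun ω => hem.elim (ω.1 (z 0))⟩
    rw [hX, Nat.card_of_isEmpty]
    simp
  · have h4 : 0 < Nat.card α ^ (Finset.Ioo 0 m).card := pow_pos h0 _
    refine Nat.le_of_mul_le_mul_right ?_ h4
    calc (∏ t ∈ Finset.Ioo 0 m, D t) * X * Nat.card α ^ (Finset.Ioo 0 m).card
        = (∏ t ∈ Finset.Ioo 0 m, D t) * (X * Nat.card α ^ (Finset.Ioo 0 m).card) := by ring
      _ = (∏ t ∈ Finset.Ioo 0 m, Nat.card {a : α // Q t a} * D t) * Nat.card (V → α) := by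
          rw [h1, Finset.prod_mul_distrib]
          ring
      _ ≤ (∏ t ∈ Finset.Ioo 0 m, N t * Nat.card α) * Nat.card (V → α) := by
          refine Nat.mul_le_mul_right _ (Finset.prod_le_prod' fun t ht => ?_)
          rw [Finset.mem_Ioo] at ht
          exact hQ t ht.1 ht.2
      _ = (∏ t ∈ Finset.Ioo 0 m, N t) * Nat.card (V → α) *
            Nat.card α ^ (Finset.Ioo 0 m).card := by
          rw [Finset.prod_mul_distrib, Finset.prod_const]
          ring

/-! ### The state space of one vertex -/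

theorem card_kx : ∀ s s' : Fin 4, s ≠ s' →
    (Finset.univ.filter (fun t : Fin 3 => kx t s = s')).card = 1 := by decide

theorem card_St (L : ℕ) : Nat.card (St L) = 3 * L * 16 := by
  rw [Nat.card_eq_fintype_card]
  simp [Fintype.card_prod]

theorem card_ptn (L : ℕ) (s s' : Fin 4) (h : s ≠ s') :
    Nat.card {a : St L // kx a.1.1 s = s'} = L * 16 := by
  classical
  rw [Nat.card_eq_fintype_card, Fintype.card_subtype]
  have h1 : (Finset.univ.filter (fun a : St L => kx a.1.1 s = s')) =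
      ((Finset.univ.filter (fun t : Fin 3 => kx t s = s')) ×ˢ (Finset.univ : Finset (Fin L))) ×ˢ
        (Finset.univ : Finset (Fin 4 → Bool)) := by
    ext a
    simp
  rw [h1, Finset.card_product, Finset.card_product, card_kx s s' h]
  simp

theorem card_ptn_kil (L : ℕ) (hL : 4 ≤ L) (s s' : Fin 4) (h : s ≠ s') :
    Nat.card {a : St L // kx a.1.1 s = s' ∧ a.1.2.val ≠ s'.val} = (L - 1) * 16 := by
  classical
  rw [Nat.card_eq_fintype_card, Fintype.card_subtype]
  have h1 : (Finset.univ.filter (fun a : St L => kx a.1.1 s = s' ∧ a.1.2.val ≠ s'.val)) =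
      ((Finset.univ.filter (fun t : Fin 3 => kx t s = s')) ×ˢ
        (Finset.univ.filter (fun l : Fin L => l.val ≠ s'.val))) ×ˢ
        (Finset.univ : Finset (Fin 4 → Bool)) := by
    ext a
    simp
  have h2 : (Finset.univ.filter (fun l : Fin L => l.val ≠ s'.val)) =
      Finset.univ.erase ⟨s'.val, lt_of_lt_of_le s'.isLt hL⟩ := by
    ext l
    simp [Fin.ext_iff]
  rw [h1, Finset.card_product, Finset.card_product, card_kx s s' h, h2,
    Finset.card_erase_of_mem (Finset.mem_univ _)]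
  simp

/-! ### Summation -/

theorem sum_bound {Z Ω : Type} [Fintype Z] [Finite Ω] (Iz : Z → Prop) (Ev : Z → Ω → Prop)
    (J : Z → ℕ → Prop) (F : Finset ℕ) (D C M B : ℕ)
    (hD : ∀ z, Iz z → D * Nat.card {ω : Ω // Ev z ω} ≤ C)
    (hM : ∀ t ∈ F, M * Nat.card {z : Z // Iz z ∧ J z t} ≤ B) :
    M * (D * ∑ z : Z, Nat.card {ω : Ω // Iz z ∧ Ev z ω ∧ ∃ t, t ∈ F ∧ J z t}) ≤
      F.card * B * C := by
  classical
  have h1 : ∀ z : Z, D * Nat.card {ω : Ω // Iz z ∧ Ev z ω ∧ ∃ t, t ∈ F ∧ J z t} ≤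
      (∑ t ∈ F, if Iz z ∧ J z t then 1 else 0) * C := by
    intro z
    by_cases hz : Iz z ∧ ∃ t, t ∈ F ∧ J z t
    · obtain ⟨hz1, t, ht, hz2⟩ := hz
      have h2 : 1 ≤ ∑ t ∈ F, if Iz z ∧ J z t then 1 else 0 := by
        calc 1 = if Iz z ∧ J z t then 1 else 0 := by rw [if_pos ⟨hz1, hz2⟩]
          _ ≤ _ := Finset.single_le_sum (f := fun t => if Iz z ∧ J z t then 1 else 0)
              (fun _ _ => Nat.zero_le _) ht
      calc D * Nat.card {ω : Ω // Iz z ∧ Ev z ω ∧ ∃ t, t ∈ F ∧ J z t}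
          ≤ D * Nat.card {ω : Ω // Ev z ω} := by
            refine Nat.mul_le_mul_left _ ?_
            refine Nat.card_le_card_of_injective
              (fun ω => (⟨ω.1, ω.2.2.1⟩ : {ω : Ω // Ev z ω})) ?_
            intro ω ω' h
            simp only [Subtype.mk.injEq] at h
            exact Subtype.ext h
        _ ≤ C := hD z hz1
        _ = 1 * C := (one_mul C).symm
        _ ≤ _ := Nat.mul_le_mul_right _ h2
    · have : IsEmpty {ω : Ω // Iz z ∧ Ev z ω ∧ ∃ t, t ∈ F ∧ J z t} :=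
        ⟨fun ω => hz ⟨ω.2.1, ω.2.2.2⟩⟩
      rw [Nat.card_of_isEmpty]
      simp
  calc M * (D * ∑ z : Z, Nat.card {ω : Ω // Iz z ∧ Ev z ω ∧ ∃ t, t ∈ F ∧ J z t})
      = M * ∑ z : Z, D * Nat.card {ω : Ω // Iz z ∧ Ev z ω ∧ ∃ t, t ∈ F ∧ J z t} := by
        rw [Finset.mul_sum]
    _ ≤ M * ∑ z : Z, (∑ t ∈ F, if Iz z ∧ J z t then 1 else 0) * C :=
        Nat.mul_le_mul_left _ (Finset.sum_le_sum fun z _ => h1 z)
    _ = (∑ t ∈ F, M * ∑ z : Z, if Iz z ∧ J z t then 1 else 0) * C := by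
        rw [← Finset.sum_mul, ← Finset.mul_sum, Finset.sum_comm]
        ring
    _ ≤ (∑ t ∈ F, B) * C := by
        refine Nat.mul_le_mul_right _ (Finset.sum_le_sum fun t ht => ?_)
        have h3 : (∑ z : Z, if Iz z ∧ J z t then 1 else 0) = Nat.card {z : Z // Iz z ∧ J z t} := by
          rw [Nat.card_eq_fintype_card, Fintype.card_subtype, Finset.card_filter]
        rw [h3]
        exact hM t ht
    _ = F.card * B * C := by
        rw [Finset.sum_const, smul_eq_mul]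

/-! ### SUM3 -/

theorem cyc_succ_last {V : Type} {n : ℕ} (z : Fin (n + 1) → V) : cyc z (n + 1) = cyc z 0 := by
  unfold cyc
  congr 1
  ext
  simp [Fin.ofNat]

theorem prob_ev3 (hPrd : PrdStmt) {V : Type} [Fintype V] (L : ℕ) (E : Env V) {n : ℕ}
    (z : Fin (n + 1) → V) (hz : IsC E.H (cyc z) (n + 1)) :
    3 ^ n * Nat.card {ω : V → St L // Ev3 E ω (cyc z) (n + 1)} ≤ Nat.card (V → St L) := by
  have h1 := prod_bound hPrd (α := St L) (cyc z) (n + 1)
    (fun s t _ hs _ ht h => hz.2.2.2 s t hs ht h)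
    (fun t a => kx a.1.1 (E.slot (cyc z t) (cyc z (t - 1))) = E.slot (cyc z t) (cyc z (t + 1)))
    (fun _ => 3) (fun _ => 1) (by
      intro t ht0 ht
      rw [card_ptn, card_St]
      · omega
      · intro hs
        have ha : E.H.Adj (cyc z t) (cyc z (t - 1)) := by
          have := (hz.2.1 (t - 1) (by omega)).symm
          rwa [Nat.sub_add_cancel ht0] at this
        have h2 := E.slot_inj _ _ _ ha (hz.2.1 t ht) hs
        rcases Nat.lt_or_ge (t + 1) (n + 1) with h3 | h3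
        · have := hz.2.2.2 _ _ (by omega) h3 h2
          omega
        · have h4 : t + 1 = n + 1 := by omega
          rw [h4, cyc_succ_last] at h2
          have := hz.2.2.2 _ _ (by omega) (by omega) h2
          have := hz.1
          omega)
  rw [Finset.prod_const, Finset.prod_const, one_pow, one_mul, Nat.card_Ioo] at h1
  exact h1

theorem sum3 (hCnt : CntCStmt) (hPrd : PrdStmt) : Sum3Stmt := by
  intro V _ L T h G E hG hHG x
  classical
  rw [Fintype.sum_sigma, Finset.mul_sum]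
  have key : ∀ n : Fin T, 3 ^ h * ∑ z : Fin (n.1 + 1) → V, Nat.card {ω : V → St L //
        IsC E.H (cyc z) (n.1 + 1) ∧ Ev3 E ω (cyc z) (n.1 + 1) ∧
          ∃ t, 0 < t ∧ t ≤ n.1 ∧ cyc z t = x} ≤ 4 * T * Nat.card (V → St L) := by
    intro n
    have h1 := sum_bound (Z := Fin (n.1 + 1) → V) (Ω := V → St L)
      (fun z => IsC E.H (cyc z) (n.1 + 1)) (fun z ω => Ev3 E ω (cyc z) (n.1 + 1))
      (fun z t => cyc z t = x) (Finset.Ioc 0 n.1) (3 ^ n.1) (Nat.card (V → St L)) (3 ^ (h + 1))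
      (4 * 3 ^ (n.1 + 1)) (fun z hz => prob_ev3 hPrd L E z hz)
      (fun t ht => hCnt V G h E hG hHG n.1 t x (Finset.mem_Ioc.1 ht).2)
    rw [Nat.card_Ioc] at h1
    have h2 : (∑ z : Fin (n.1 + 1) → V, Nat.card {ω : V → St L //
        IsC E.H (cyc z) (n.1 + 1) ∧ Ev3 E ω (cyc z) (n.1 + 1) ∧
          ∃ t, t ∈ Finset.Ioc 0 n.1 ∧ cyc z t = x}) =
        ∑ z : Fin (n.1 + 1) → V, Nat.card {ω : V → St L //
        IsC E.H (cyc z) (n.1 + 1) ∧ Ev3 E ω (cyc z) (n.1 + 1) ∧
          ∃ t, 0 < t ∧ t ≤ n.1 ∧ cyc z t = x} := by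
      refine Finset.sum_congr rfl fun z _ => ?_
      congr 2
      funext ω
      simp only [Finset.mem_Ioc, and_assoc]
    rw [h2] at h1
    set S := ∑ z : Fin (n.1 + 1) → V, Nat.card {ω : V → St L //
        IsC E.H (cyc z) (n.1 + 1) ∧ Ev3 E ω (cyc z) (n.1 + 1) ∧
          ∃ t, 0 < t ∧ t ≤ n.1 ∧ cyc z t = x} with hS
    have h3 : 0 < 3 ^ (n.1 + 1) := by positivity
    refine Nat.le_of_mul_le_mul_left ?_ h3
    calc 3 ^ (n.1 + 1) * (3 ^ h * S) = 3 ^ (h + 1) * (3 ^ n.1 * S) := by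
          rw [pow_succ, pow_succ]
          ring
      _ ≤ (n.1 - 0) * (4 * 3 ^ (n.1 + 1)) * Nat.card (V → St L) := h1
      _ ≤ T * (4 * 3 ^ (n.1 + 1)) * Nat.card (V → St L) := by
          refine Nat.mul_le_mul_right _ (Nat.mul_le_mul_right _ ?_)
          omega
      _ = 3 ^ (n.1 + 1) * (4 * T * Nat.card (V → St L)) := by ring
  calc _ ≤ ∑ n : Fin T, 4 * T * Nat.card (V → St L) := Finset.sum_le_sum fun n _ => key n
    _ = 4 * T ^ 2 * Nat.card (V → St L) := by
      rw [Finset.sum_const, Finset.card_univ, Fintype.card_fin, smul_eq_mul]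
      ring

/-! ### SUM2 -/

theorem prob_ev2 (hPrd : PrdStmt) {V : Type} [Fintype V] (L T a : ℕ) (hL : 4 ≤ L) (E : Env V)
    (z : ℕ → V) (hz : IsP E.H z T)
    (ha : a ≤ {t : ℕ | 0 < t ∧ t < T ∧ E.al (z t)}.ncard) :
    L ^ a * 3 ^ (T - 1) * Nat.card {ω : V → St L // Ev2 E ω z T} ≤
      (L - 1) ^ a * Nat.card (V → St L) := by
  classical
  have h1 := prod_bound hPrd (α := St L) z T
    (fun s t _ hs _ ht h => hz.2 s t hs.le ht.le h)
    (fun t a => kx a.1.1 (E.slot (z t) (z (t - 1))) = E.slot (z t) (z (t + 1)) ∧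
      ¬ (E.al (z t) ∧ a.1.2.val = (E.slot (z t) (z (t + 1))).val))
    (fun t => 3 * if E.al (z t) then L else 1) (fun t => if E.al (z t) then L - 1 else 1) (by
      intro t ht0 ht
      have hs : E.slot (z t) (z (t - 1)) ≠ E.slot (z t) (z (t + 1)) := by
        intro hs
        have ha : E.H.Adj (z t) (z (t - 1)) := by
          have := (hz.1 (t - 1) (by omega)).symm
          rwa [Nat.sub_add_cancel ht0] at this
        have h2 := hz.2 _ _ (by omega) (by omega) (E.slot_inj _ _ _ ha (hz.1 t ht) hs)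
        omega
      by_cases hal : E.al (z t)
      · simp only [hal, true_and, if_true]
        have h3 := card_ptn_kil L hL _ _ hs
        simp only [ne_eq] at h3
        rw [h3, card_St]
        apply le_of_eq
        ring
      · simp only [hal, false_and, not_false_eq_true, and_true, if_false]
        rw [card_ptn L _ _ hs, card_St]
        omega)
  rw [Finset.prod_mul_distrib, Finset.prod_const, Nat.card_Ioo, Nat.sub_zero,
    Finset.prod_ite, Finset.prod_ite, Finset.prod_const, Finset.prod_const, Finset.prod_const,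
    one_pow, mul_one, mul_one] at h1
  have hb : {t : ℕ | 0 < t ∧ t < T ∧ E.al (z t)} =
      ↑((Finset.Ioo 0 T).filter (fun t => E.al (z t))) := by
    ext t
    simp [and_assoc]
  rw [hb, Set.ncard_coe_finset] at ha
  set b := ((Finset.Ioo 0 T).filter (fun t => E.al (z t))).card with hbdef
  have h2 : Nat.card {ω : V → St L // Ev2 E ω z T} = Nat.card {ω : V → St L //
      ∀ t, 0 < t → t < T → (kx (ω (z t)).1.1 (E.slot (z t) (z (t - 1))) =
        E.slot (z t) (z (t + 1)) ∧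
      ¬ (E.al (z t) ∧ (ω (z t)).1.2.val = (E.slot (z t) (z (t + 1))).val))} := rfl
  rw [← h2] at h1
  set X := Nat.card {ω : V → St L // Ev2 E ω z T} with hX
  obtain ⟨d, hd⟩ := Nat.exists_eq_add_of_le ha
  have h3 : 0 < L ^ d := pow_pos (by omega) _
  refine Nat.le_of_mul_le_mul_left ?_ h3
  calc L ^ d * (L ^ a * 3 ^ (T - 1) * X) = 3 ^ (T - 1) * L ^ b * X := by
        rw [hd, pow_add]
        ring
    _ ≤ (L - 1) ^ b * Nat.card (V → St L) := h1
    _ = (L - 1) ^ d * ((L - 1) ^ a * Nat.card (V → St L)) := by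
        rw [hd, pow_add]
        ring
    _ ≤ L ^ d * ((L - 1) ^ a * Nat.card (V → St L)) :=
        Nat.mul_le_mul_right _ (Nat.pow_le_pow_left (by omega) _)

theorem sum2 (hCnt : CntPStmt) (hPrd : PrdStmt) : Sum2Stmt := by
  intro V _ L T a E hL hal x
  classical
  rcases Nat.eq_zero_or_pos T with hT | hT
  · subst hT
    have h0 : ∀ z : Fin (0 + 1) → V, Nat.card {ω : V → St L //
        IsP E.H (cyc z) 0 ∧ Ev2 E ω (cyc z) 0 ∧ ∃ t, 0 < t ∧ t < 0 ∧ cyc z t = x} = 0 := by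
      intro z
      have : IsEmpty {ω : V → St L //
        IsP E.H (cyc z) 0 ∧ Ev2 E ω (cyc z) 0 ∧ ∃ t, 0 < t ∧ t < 0 ∧ cyc z t = x} := by
        refine ⟨?_⟩
        rintro ⟨ω, -, -, t, -, ht, -⟩
        omega
      exact Nat.card_of_isEmpty
    rw [Finset.sum_congr rfl fun z _ => h0 z]
    simp
  have h1 := sum_bound (Z := Fin (T + 1) → V) (Ω := V → St L)
    (fun z => IsP E.H (cyc z) T) (fun z ω => Ev2 E ω (cyc z) T)
    (fun z t => cyc z t = x) (Finset.Ioo 0 T) (L ^ a * 3 ^ (T - 1))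
    ((L - 1) ^ a * Nat.card (V → St L)) 9
    (16 * 3 ^ T) (fun z hz => prob_ev2 hPrd L T a hL E _ hz (hal _ hz))
    (fun t ht => hCnt V E T t x (Finset.mem_Ioo.1 ht).2.le)
  rw [Nat.card_Ioo] at h1
  have h2 : (∑ z : Fin (T + 1) → V, Nat.card {ω : V → St L //
      IsP E.H (cyc z) T ∧ Ev2 E ω (cyc z) T ∧ ∃ t, t ∈ Finset.Ioo 0 T ∧ cyc z t = x}) =
      ∑ z : Fin (T + 1) → V, Nat.card {ω : V → St L //
      IsP E.H (cyc z) T ∧ Ev2 E ω (cyc z) T ∧ ∃ t, 0 < t ∧ t < T ∧ cyc z t = x} := by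
    refine Finset.sum_congr rfl fun z _ => ?_
    congr 2
    funext ω
    simp only [Finset.mem_Ioo, and_assoc]
  rw [h2] at h1
  set S := ∑ z : Fin (T + 1) → V, Nat.card {ω : V → St L //
      IsP E.H (cyc z) T ∧ Ev2 E ω (cyc z) T ∧ ∃ t, 0 < t ∧ t < T ∧ cyc z t = x} with hS
  obtain ⟨m, rfl⟩ := Nat.exists_eq_add_of_le hT
  have h3 : 0 < 9 * 3 ^ m := by positivity
  refine Nat.le_of_mul_le_mul_left ?_ h3
  rw [show 1 + m - 1 = m by omega] at h1
  calc 9 * 3 ^ m * (L ^ a * S) = 9 * (L ^ a * 3 ^ m * S) := by ring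
    _ ≤ (1 + m - 0 - 1) * (16 * 3 ^ (1 + m)) * ((L - 1) ^ a * Nat.card (V → St L)) := h1
    _ = 9 * 3 ^ m * (16 * m * (L - 1) ^ a * Nat.card (V → St L)) / 3 := by
        rw [show 1 + m - 0 - 1 = m by omega, pow_add]
        rw [show 9 * 3 ^ m * (16 * m * (L - 1) ^ a * Nat.card (V → St L)) =
          (m * (16 * (3 ^ 1 * 3 ^ m)) * ((L - 1) ^ a * Nat.card (V → St L))) * 3 by ring]
        rw [Nat.mul_div_cancel _ (by norm_num)]
    _ ≤ 9 * 3 ^ m * (6 * (1 + m) * (L - 1) ^ a * Nat.card (V → St L)) := by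
        refine Nat.div_le_of_le_mul ?_
        rw [show 3 * (9 * 3 ^ m * (6 * (1 + m) * (L - 1) ^ a * Nat.card (V → St L))) =
          9 * 3 ^ m * (18 * (1 + m) * (L - 1) ^ a * Nat.card (V → St L)) by ring]
        refine Nat.mul_le_mul_left _ (Nat.mul_le_mul_right _ (Nat.mul_le_mul_right _ ?_))
        omega

end Pool.Agent.LAG.H10

namespace Pool.Agent.LAG

theorem sum2 (hCnt : CntPStmt) (hPrd : PrdStmt) : Sum2Stmt := H10.sum2 hCnt hPrd

theorem sum3 (hCnt : CntCStmt) (hPrd : PrdStmt) : Sum3Stmt := H10.sum3 hCnt hPrd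

end Pool.Agent.LAG
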