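import Mathlib
import Pool.Agent.Helper76_LAG.Stmt

/-!
# LAG: modules UNIQ and ZONE (uniqueness of short paths)
-/

set_option autoImplicit false

namespace Pool.Agent.LAG.H10

open SimpleGraph

variable {V : Type}

theorem uniq : UniqStmt := by
  intro V G g hG u v p q hp hq hlen
  classical
  by_contra hne
  set H : SimpleGraph V := fromEdgeSet {e | e ∈ p.edges ∨ e ∈ q.edges} with hH
  have hHG : H ≤ G := by
    intro a b hab
    rw [hH, fromEdgeSet_adj] at hab
    rcases hab.1 with h | h
    · exact p.adj_of_mem_edges h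
    · exact q.adj_of_mem_edges h
  have hpH : ∀ e ∈ p.edges, e ∈ H.edgeSet := by
    intro e he
    rw [hH, edgeSet_fromEdgeSet]
    exact ⟨Or.inl he, G.not_isDiag_of_mem_edgeSet (p.edges_subset_edgeSet he)⟩
  have hqH : ∀ e ∈ q.edges, e ∈ H.edgeSet := by
    intro e he
    rw [hH, edgeSet_fromEdgeSet]
    exact ⟨Or.inr he, G.not_isDiag_of_mem_edgeSet (q.edges_subset_edgeSet he)⟩
  have hac : ¬ H.IsAcyclic := by
    intro hac
    have h1 := (hac.subsingleton_path u v).elim ⟨p.transfer H hpH, hp.transfer hpH⟩
      ⟨q.transfer H hqH, hq.transfer hqH⟩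
    have h2 : p.transfer H hpH = q.transfer H hqH := congrArg Subtype.val h1
    apply hne
    have hHe : ∀ e ∈ (p.transfer H hpH).edges, e ∈ G.edgeSet := by
      rw [Walk.edges_transfer]
      intro e he
      exact p.edges_subset_edgeSet he
    have hHe' : ∀ e ∈ (q.transfer H hqH).edges, e ∈ G.edgeSet := by
      rw [Walk.edges_transfer]
      intro e he
      exact q.edges_subset_edgeSet he
    have h3 : (p.transfer H hpH).transfer G hHe = (q.transfer H hqH).transfer G hHe' := by
      congr 1
    rw [Walk.transfer_transfer, Walk.transfer_transfer, Walk.transfer_self, Walk.transfer_self] at h3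
    exact h3
  apply hac
  intro a c hc
  have h1 := hG a (c.mapLe hHG) (hc.mapLe hHG)
  rw [Walk.length_map] at h1
  have h2 : c.length ≤ p.length + q.length := by
    have h3 : c.edges.toFinset ⊆ p.edges.toFinset ∪ q.edges.toFinset := by
      intro e he
      rw [List.mem_toFinset] at he
      have := c.edges_subset_edgeSet he
      rw [hH, edgeSet_fromEdgeSet] at this
      simpa using this.1
    calc c.length = c.edges.length := (Walk.length_edges c).symm
      _ = c.edges.toFinset.card := (List.toFinset_card_of_nodup hc.edges_nodup).symm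
      _ ≤ (p.edges.toFinset ∪ q.edges.toFinset).card := Finset.card_le_card h3
      _ ≤ p.edges.toFinset.card + q.edges.toFinset.card := Finset.card_union_le _ _
      _ ≤ p.edges.length + q.edges.length :=
        add_le_add (List.toFinset_card_le _) (List.toFinset_card_le _)
      _ = p.length + q.length := by rw [Walk.length_edges, Walk.length_edges]
  omega

/-- A sequence of adjacent vertices gives a walk. -/
theorem exists_walk (G : SimpleGraph V) : ∀ (n : ℕ) (z : ℕ → V),
    (∀ t, t < n → G.Adj (z t) (z (t + 1))) →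
    ∃ p : G.Walk (z 0) (z n), p.length = n ∧ ∀ t, t ≤ n → p.getVert t = z t := by
  intro n
  induction n with
  | zero =>
    intro z _
    refine ⟨Walk.nil, rfl, ?_⟩
    intro t ht
    obtain rfl : t = 0 := by omega
    rfl
  | succ n ih =>
    intro z hz
    obtain ⟨p, hp, hp'⟩ := ih (fun t => z (t + 1)) (fun t ht => hz (t + 1) (by omega))
    refine ⟨Walk.cons (hz 0 (by omega)) p, by simp [hp], ?_⟩
    intro t ht
    rcases t with _ | t
    · rfl
    · rw [Walk.getVert_cons_succ]
      exact hp' t (by omega)

theorem exists_path (G : SimpleGraph V) (n : ℕ) (z : ℕ → V) (hz : IsP G z n) :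
    ∃ p : G.Walk (z 0) (z n), p.IsPath ∧ p.length = n ∧ ∀ t, t ≤ n → p.getVert t = z t := by
  obtain ⟨p, hp, hp'⟩ := exists_walk G n z hz.1
  refine ⟨p, ?_, hp, hp'⟩
  rw [← Walk.IsPath.getVert_injOn_iff]
  intro s hs t ht h
  have hs' : s ≤ n := hp ▸ hs
  have ht' : t ≤ n := hp ▸ ht
  rw [hp' s hs', hp' t ht'] at h
  exact hz.2 s t hs' ht' h

theorem uniqS : UniqSStmt := by
  intro V G g hG z z' n n' hz hz' h0 hn hg
  obtain ⟨p, hp, hpl, hpv⟩ := exists_path G n z hz
  obtain ⟨q, hq, hql, hqv⟩ := exists_path G n' z' hz'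
  have h1 : p = (q.copy h0.symm hn.symm) := by
    refine uniq V G g hG _ _ p _ hp ?_ ?_
    · rw [Walk.isPath_copy]
      exact hq
    · rw [Walk.length_copy]
      omega
  have h2 : n = n' := by
    have := congrArg Walk.length h1
    rw [Walk.length_copy] at this
    omega
  refine ⟨h2, fun t ht => ?_⟩
  rw [← hpv t ht, ← hqv t (by omega), h1, Walk.getVert_copy]

theorem cycLen : CycLenStmt := by
  intro V G g hG z m hz
  obtain ⟨h3, hadj, h0, hinj⟩ := hz
  by_contra hle
  rw [not_lt] at hle
  have hP : IsP G (fun t => z (t + 1)) (m - 1) := by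
    refine ⟨fun t ht => hadj (t + 1) (by omega), ?_⟩
    intro s t hs ht h
    simp only at h
    rcases Nat.lt_or_ge (s + 1) m with hs' | hs'
    · rcases Nat.lt_or_ge (t + 1) m with ht' | ht'
      · have := hinj _ _ hs' ht' h
        omega
      · have ht'' : t + 1 = m := by omega
        rw [ht'', h0] at h
        have := hinj _ _ hs' (by omega) h
        omega
    · have hs'' : s + 1 = m := by omega
      rcases Nat.lt_or_ge (t + 1) m with ht' | ht'
      · rw [hs'', h0] at h
        have := hinj _ _ (by omega) ht' h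
        omega
      · omega
  have hQ : IsP G (fun t => z (1 - t)) 1 := by
    refine ⟨fun t ht => ?_, ?_⟩
    · obtain rfl : t = 0 := by omega
      exact (hadj 0 (by omega)).symm
    · intro s t hs ht h
      simp only at h
      have := hinj _ _ (by omega) (by omega) h
      omega
  have := uniqS V G g hG _ _ (m - 1) 1 hP hQ (by simp) (by
    simp only [Nat.sub_self]
    rw [Nat.sub_add_cancel (by omega), h0]) (by omega)
  omega

theorem near_symm {G : SimpleGraph V} {r : ℕ} {a b : V} (h : near G r a b) : near G r b a := by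
  obtain ⟨p, hp⟩ := h
  exact ⟨p.reverse, by rwa [Walk.length_reverse]⟩

theorem near_trans {G : SimpleGraph V} {r s : ℕ} {a b c : V} (h : near G r a b)
    (h' : near G s b c) : near G (r + s) a c := by
  obtain ⟨p, hp⟩ := h
  obtain ⟨q, hq⟩ := h'
  exact ⟨p.append q, by rw [Walk.length_append]; omega⟩

theorem near_mono {G : SimpleGraph V} {r s : ℕ} {a b : V} (hrs : r ≤ s) (h : near G r a b) :
    near G s a b := by
  obtain ⟨p, hp⟩ := h
  exact ⟨p, hp.trans hrs⟩

theorem zone (hU : UniqStmt) : ZoneStmt := by
  intro V G ρ X hG hX z hz hx hy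
  classical
  obtain ⟨x, hxX, hx⟩ := hx
  obtain ⟨y, hyX, hy⟩ := hy
  obtain ⟨p, hp, hpl, -⟩ := exists_path G _ z hz
  by_cases hxy : x = y
  · subst hxy
    obtain ⟨q, hq⟩ := near_trans hx (near_symm hy)
    have h1 := hU V G _ hG _ _ p q.bypass hp q.bypass_isPath (by
      have := q.length_bypass_le_length
      omega)
    have h2 := congrArg Walk.length h1
    have h3 := q.length_bypass_le_length
    omega
  · refine hX x hxX y hyX hxy ?_
    have h1 : near G (ρ + (2 * ρ + 2) + ρ) x y :=
      near_trans (near_trans (near_symm hx) ⟨p, hpl.le⟩) hy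
    exact near_mono (by omega) h1

end Pool.Agent.LAG.H10

namespace Pool.Agent.LAG

theorem uniq : UniqStmt := H10.uniq

theorem uniqS : UniqSStmt := H10.uniqS

theorem cycLen : CycLenStmt := H10.cycLen

theorem zone (hU : UniqStmt) : ZoneStmt := H10.zone hU

end Pool.Agent.LAG
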